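import Mathlib

set_option autoImplicit false
set_option linter.unusedSectionVars false

/-!
# Independent factors of `T × T` that contain a function `f (x) + g (y)` modulo a prime number
-/

open MeasureTheory ProbabilityTheory

namespace Pool.Agent.Results.MP_fa3ce5_an.ModPFactors

/-- The function `φ` on `α × α` belongs to the factor `F` (up to a null set). -/
def InFactor {α β : Type*} [MeasurableSpace α] [MeasurableSpace β] (μ : Measure α)
    (F : MeasurableSpace (α × α)) (φ : α × α → β) : Prop :=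
  ∃ ψ : α × α → β, Measurable[F] ψ ∧ ψ =ᵐ[μ.prod μ] φ

section Dichotomy

variable {α : Type*} [MeasurableSpace α] {μ : Measure α} [IsProbabilityMeasure μ]

lemma integral_snd_eq (v : α → ℂ) : ∫ q : α × α, v q.2 ∂(μ.prod μ) = ∫ x, v x ∂μ := by
  have h := integral_prod_mul (μ := μ) (ν := μ) (fun _ : α => (1 : ℂ)) v
  simpa using h

lemma integral_fst_eq (v : α → ℂ) : ∫ q : α × α, v q.1 ∂(μ.prod μ) = ∫ x, v x ∂μ := by
  have h := integral_prod_mul (μ := μ) (ν := μ) v (fun _ : α => (1 : ℂ))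
  simpa using h

lemma conj_mul_self {z : ℂ} (hz : ‖z‖ = 1) : z * (starRingEnd ℂ) z = 1 := by
  rw [Complex.mul_conj, Complex.normSq_eq_norm_sq, hz]
  norm_num

lemma relation_fst {F : MeasurableSpace (α × α)}
    (h1 : Indep F (MeasurableSpace.comap Prod.fst (inferInstance : MeasurableSpace α)) (μ.prod μ))
    {u v : α → ℂ} (hu : Measurable u) (hv : Measurable v) (hu1 : ∀ x, ‖u x‖ = 1)
    (hF : InFactor μ F fun q : α × α => u q.1 * v q.2) :
    ∫ x, v x ∂μ = (∫ x, u x ∂μ) * (∫ x, v x ∂μ) * (starRingEnd ℂ) (∫ x, u x ∂μ) := by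
  obtain ⟨ψ, hψ, hψe⟩ := hF
  have hc : Measurable fun x => (starRingEnd ℂ) (u x) := Complex.continuous_conj.measurable.comp hu
  have hind : IndepFun ψ
      (fun q : α × α => (starRingEnd ℂ) (u q.1)) (μ.prod μ) := by
    rw [IndepFun_iff_Indep]
    refine indep_of_indep_of_le_left (indep_of_indep_of_le_right h1 ?_) hψ.comap_le
    have : (fun q : α × α => (starRingEnd ℂ) (u q.1)) =
        (fun x => (starRingEnd ℂ) (u x)) ∘ Prod.fst := rfl
    rw [this, ← MeasurableSpace.comap_comp]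
    exact MeasurableSpace.comap_mono hc.comap_le
  have hψm :=
    ((hu.comp measurable_fst).mul (hv.comp measurable_snd)).aestronglyMeasurable.congr hψe.symm
  have h := hind.integral_fun_mul_eq_mul_integral hψm
    (hc.comp measurable_fst).aestronglyMeasurable
  have hl : ∫ q, ψ q * (starRingEnd ℂ) (u q.1) ∂(μ.prod μ) =
      ∫ q : α × α, u q.1 * v q.2 * (starRingEnd ℂ) (u q.1) ∂(μ.prod μ) :=
    integral_congr_ae (hψe.mono fun q hq => by
      show ψ q * (starRingEnd ℂ) (u q.1) = _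
      rw [hq])
  rw [hl, integral_congr_ae hψe] at h
  have e1 : ∀ q : α × α, u q.1 * v q.2 * (starRingEnd ℂ) (u q.1) = v q.2 := by
    intro q
    have := conj_mul_self (hu1 q.1)
    linear_combination v q.2 * this
  simp only [e1] at h
  rw [integral_snd_eq, integral_prod_mul, integral_fst_eq (fun x => (starRingEnd ℂ) (u x)),
    integral_conj] at h
  exact h

lemma relation_snd {F : MeasurableSpace (α × α)}
    (h2 : Indep F (MeasurableSpace.comap Prod.snd (inferInstance : MeasurableSpace α)) (μ.prod μ))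
    {u v : α → ℂ} (hu : Measurable u) (hv : Measurable v) (hv1 : ∀ x, ‖v x‖ = 1)
    (hF : InFactor μ F fun q : α × α => u q.1 * v q.2) :
    ∫ x, u x ∂μ = (∫ x, u x ∂μ) * (∫ x, v x ∂μ) * (starRingEnd ℂ) (∫ x, v x ∂μ) := by
  obtain ⟨ψ, hψ, hψe⟩ := hF
  have hc : Measurable fun x => (starRingEnd ℂ) (v x) := Complex.continuous_conj.measurable.comp hv
  have hind : IndepFun ψ
      (fun q : α × α => (starRingEnd ℂ) (v q.2)) (μ.prod μ) := by
    rw [IndepFun_iff_Indep]
    refine indep_of_indep_of_le_left (indep_of_indep_of_le_right h2 ?_) hψ.comap_le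
    have : (fun q : α × α => (starRingEnd ℂ) (v q.2)) =
        (fun x => (starRingEnd ℂ) (v x)) ∘ Prod.snd := rfl
    rw [this, ← MeasurableSpace.comap_comp]
    exact MeasurableSpace.comap_mono hc.comap_le
  have hψm :=
    ((hu.comp measurable_fst).mul (hv.comp measurable_snd)).aestronglyMeasurable.congr hψe.symm
  have h := hind.integral_fun_mul_eq_mul_integral hψm
    (hc.comp measurable_snd).aestronglyMeasurable
  have hl : ∫ q, ψ q * (starRingEnd ℂ) (v q.2) ∂(μ.prod μ) =
      ∫ q : α × α, u q.1 * v q.2 * (starRingEnd ℂ) (v q.2) ∂(μ.prod μ) :=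
    integral_congr_ae (hψe.mono fun q hq => by
      show ψ q * (starRingEnd ℂ) (v q.2) = _
      rw [hq])
  rw [hl, integral_congr_ae hψe] at h
  have e1 : ∀ q : α × α, u q.1 * v q.2 * (starRingEnd ℂ) (v q.2) = u q.1 := by
    intro q
    have := conj_mul_self (hv1 q.2)
    linear_combination u q.1 * this
  simp only [e1] at h
  rw [integral_fst_eq, integral_prod_mul, integral_snd_eq (fun x => (starRingEnd ℂ) (v x)),
    integral_conj] at h
  exact h

lemma dichotomy {F : MeasurableSpace (α × α)}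
    (h1 : Indep F (MeasurableSpace.comap Prod.fst (inferInstance : MeasurableSpace α)) (μ.prod μ))
    (h2 : Indep F (MeasurableSpace.comap Prod.snd (inferInstance : MeasurableSpace α)) (μ.prod μ))
    {u v : α → ℂ} (hu : Measurable u) (hv : Measurable v) (hu1 : ∀ x, ‖u x‖ = 1)
    (hv1 : ∀ x, ‖v x‖ = 1) (hF : InFactor μ F fun q : α × α => u q.1 * v q.2) :
    (∫ x, u x ∂μ = 0 ∧ ∫ x, v x ∂μ = 0) ∨ (‖∫ x, u x ∂μ‖ = 1 ∧ ‖∫ x, v x ∂μ‖ = 1) := by
  have e1 := relation_fst h1 hu hv hu1 hF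
  have e2 := relation_snd h2 hu hv hv1 hF
  set a := ∫ x, u x ∂μ
  set b := ∫ x, v x ∂μ
  have f1 : b * (1 - (‖a‖ ^ 2 : ℝ)) = 0 := by
    have : a * (starRingEnd ℂ) a = ((‖a‖ ^ 2 : ℝ) : ℂ) := by
      rw [Complex.mul_conj, Complex.normSq_eq_norm_sq]
    rw [← this]
    linear_combination e1
  have f2 : a * (1 - (‖b‖ ^ 2 : ℝ)) = 0 := by
    have : b * (starRingEnd ℂ) b = ((‖b‖ ^ 2 : ℝ) : ℂ) := by
      rw [Complex.mul_conj, Complex.normSq_eq_norm_sq]
    rw [← this]
    linear_combination e2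
  have g : ∀ z : ℂ, (1 - ((‖z‖ ^ 2 : ℝ) : ℂ)) = 0 → ‖z‖ = 1 := by
    intro z hz
    have h3 : ((1 - ‖z‖ ^ 2 : ℝ) : ℂ) = 0 := by push_cast; push_cast at hz; exact hz
    have h4 : 1 - ‖z‖ ^ 2 = 0 := by exact_mod_cast h3
    nlinarith [norm_nonneg z]
  by_cases ha : a = 0
  · left
    refine ⟨ha, ?_⟩
    rw [ha] at f1
    simpa using f1
  · right
    have hb := g b ((mul_eq_zero.1 f2).resolve_left ha)
    have hb0 : b ≠ 0 := by
      rintro h0
      rw [h0, norm_zero] at hb
      norm_num at hb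
    exact ⟨g a ((mul_eq_zero.1 f1).resolve_left hb0), hb⟩

lemma const_of_norm_one {u : α → ℂ} (hu1 : ∀ x, ‖u x‖ = 1) (h : ‖∫ x, u x ∂μ‖ = 1) :
    ∃ c : ℂ, ∀ᵐ x ∂μ, u x = c := by
  rcases ae_eq_const_or_norm_integral_lt_of_norm_le_const (μ := μ) (C := 1) (f := u)
    (Filter.Eventually.of_forall fun x => (hu1 x).le) with h3 | h3
  · exact ⟨_, h3⟩
  · rw [h] at h3
    simp at h3

lemma norm_one_of_const {u : α → ℂ} (hu1 : ∀ x, ‖u x‖ = 1) (h : ∃ c : ℂ, ∀ᵐ x ∂μ, u x = c) :
    ‖∫ x, u x ∂μ‖ = 1 := by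
  obtain ⟨c, hc⟩ := h
  obtain ⟨x, hx⟩ := hc.exists
  rw [integral_congr_ae hc]
  simp [← hx, hu1 x]

end Dichotomy

section Main

variable {α : Type*} [MeasurableSpace α] {μ : Measure α} [IsProbabilityMeasure μ]
  {p : ℕ} [Fact p.Prime]

/-- A linear combination of the functions `f`, `f ∘ T`, ..., `f ∘ T ^ (n - 1)`. -/
def comb (T : α → α) (f : α → ZMod p) {n : ℕ} (a : Fin n → ZMod p) (x : α) : ZMod p :=
  ∑ i, a i * f (T^[i] x)

/-- The character. -/
noncomputable def chi (z : ZMod p) : ℂ := ZMod.stdAddChar z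

lemma norm_chi (z : ZMod p) : ‖chi z‖ = 1 := AddChar.norm_apply _ _

lemma chi_add (z w : ZMod p) : chi (z + w) = chi z * chi w := AddChar.map_add_eq_mul _ _ _

lemma chi_inj {z w : ZMod p} (h : chi z = chi w) : z = w := ZMod.injective_stdAddChar h

lemma measurable_chi_sum {β : Type*} {m : MeasurableSpace β} {n : ℕ} (a : Fin n → ZMod p)
    (φ : Fin n → β → ZMod p) (hφ : ∀ i, Measurable (φ i)) :
    Measurable fun x => chi (∑ i, a i * φ i x) := by
  have h1 : Measurable fun x => fun i => φ i x := measurable_pi_lambda _ hφ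
  have h2 : Measurable fun w : Fin n → ZMod p => chi (∑ i, a i * w i) := measurable_of_finite _
  exact h2.comp h1

lemma not_const {T : α → α} (hT : MeasurePreserving T μ μ)
    (hE : Ergodic (Prod.map T T) (μ.prod μ)) {f : α → ZMod p} (hf : Measurable f)
    (hfc : ¬ ∃ c, ∀ᵐ x ∂μ, f x = c) {n : ℕ} {a : Fin n → ZMod p} (ha : a ≠ 0) :
    ¬ ∃ c, ∀ᵐ x ∂μ, comb T f a x = c := by
  classical
  rintro ⟨c, hc⟩
  obtain ⟨i1, hi1, hmax⟩ : ∃ i1 : Fin n, a i1 ≠ 0 ∧ ∀ j, i1 < j → a j = 0 := by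
    obtain ⟨i, hi⟩ := Function.ne_iff.1 ha
    have hne : (Finset.univ.filter fun i => a i ≠ 0).Nonempty := ⟨i, by simpa using hi⟩
    refine ⟨_, (Finset.mem_filter.1 (Finset.max'_mem _ hne)).2, fun j hj => ?_⟩
    by_contra hj0
    exact absurd (Finset.le_max' _ j (Finset.mem_filter.2 ⟨Finset.mem_univ _, hj0⟩)) (not_le.2 hj)
  have hin := i1.isLt
  set m := n - (i1 : ℕ) with hm
  have hc' : ∀ᵐ x ∂μ, comb T f a (T^[m] x) = c :=
    (hT.iterate m).quasiMeasurePreserving.ae hc
  set D : Set (α × α) := {q | ∀ j : Fin n, f (T^[j] q.1) = f (T^[j] q.2)} with hD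
  have hDm : MeasurableSet D := by
    have : D = ⋂ j : Fin n, {q : α × α | f (T^[j] q.1) = f (T^[j] q.2)} := by
      ext q; simp [hD]
    rw [this]
    refine MeasurableSet.iInter fun j => measurableSet_eq_fun ?_ ?_
    · exact hf.comp ((hT.measurable.iterate _).comp measurable_fst)
    · exact hf.comp ((hT.measurable.iterate _).comp measurable_snd)
  have hsub : D ≤ᵐ[μ.prod μ] Prod.map T T ⁻¹' D := by
    have h1 : ∀ᵐ q ∂(μ.prod μ), comb T f a (T^[m] q.1) = c :=
      Measure.quasiMeasurePreserving_fst.ae hc'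
    have h2 : ∀ᵐ q ∂(μ.prod μ), comb T f a (T^[m] q.2) = c :=
      Measure.quasiMeasurePreserving_snd.ae hc'
    filter_upwards [h1, h2] with q hq1 hq2 hqD j
    show f (T^[j] (T q.1)) = f (T^[j] (T q.2))
    rw [← Function.iterate_succ_apply, ← Function.iterate_succ_apply]
    have hqD' : ∀ k, k < n → f (T^[k] q.1) = f (T^[k] q.2) := fun k hk => hqD ⟨k, hk⟩
    by_cases hj : (j : ℕ) + 1 < n
    · exact hqD' _ hj
    · have hjn : (j : ℕ) + 1 = i1 + m := by omega
      rw [Nat.succ_eq_add_one, hjn, Function.iterate_add_apply, Function.iterate_add_apply]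
      have hsum : ∑ i, a i * f (T^[i] (T^[m] q.1)) = ∑ i, a i * f (T^[i] (T^[m] q.2)) :=
        hq1.trans hq2.symm
      rw [← Finset.add_sum_erase _ _ (Finset.mem_univ i1),
        ← Finset.add_sum_erase _ _ (Finset.mem_univ i1)] at hsum
      have hrest : ∑ i ∈ Finset.univ.erase i1, a i * f (T^[i] (T^[m] q.1)) =
          ∑ i ∈ Finset.univ.erase i1, a i * f (T^[i] (T^[m] q.2)) := by
        refine Finset.sum_congr rfl fun i hi => ?_
        rcases lt_or_gt_of_ne (Finset.ne_of_mem_erase hi) with hlt | hgt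
        · rw [← Function.iterate_add_apply, ← Function.iterate_add_apply,
            hqD' (i + m) (by have : (i : ℕ) < i1 := hlt; omega)]
        · rw [hmax i hgt, zero_mul, zero_mul]
      rw [hrest] at hsum
      exact mul_left_cancel₀ hi1 (add_right_cancel hsum)
  rcases hE.ae_empty_or_univ_of_ae_le_preimage hDm.nullMeasurableSet hsub with h0 | h1
  · -- positive measure
    have hpos : ∃ w : Fin n → ZMod p, μ {x | ∀ j : Fin n, f (T^[j] x) = w j} ≠ 0 := by
      by_contra hcon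
      rw [not_exists] at hcon
      simp only [not_not] at hcon
      have h2 : μ (⋃ w : Fin n → ZMod p, {x | ∀ j : Fin n, f (T^[j] x) = w j}) = 0 :=
        measure_iUnion_null hcon
      have h3 : (⋃ w : Fin n → ZMod p, {x | ∀ j : Fin n, f (T^[j] x) = w j}) = Set.univ := by
        ext x
        simp only [Set.mem_iUnion, Set.mem_univ, iff_true]
        exact ⟨fun j => f (T^[j] x), fun j => rfl⟩
      rw [h3, measure_univ] at h2
      exact one_ne_zero h2
    obtain ⟨w, hw⟩ := hpos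
    have hsub2 : {x | ∀ j : Fin n, f (T^[j] x) = w j} ×ˢ {x | ∀ j : Fin n, f (T^[j] x) = w j} ⊆
        D := by
      rintro ⟨x, y⟩ ⟨hx, hy⟩ j
      exact (hx j).trans (hy j).symm
    have h4 : (μ.prod μ) D = 0 := by
      rw [measure_congr h0, measure_empty]
    have h5 := measure_mono_null hsub2 h4
    rw [Measure.prod_prod, mul_self_eq_zero] at h5
    exact hw h5
  · have h2 : ∀ᵐ q ∂(μ.prod μ), f q.1 = f q.2 := by
      have h1' : ∀ᵐ q ∂(μ.prod μ), q ∈ D := Filter.eventuallyEq_univ.1 h1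
      filter_upwards [h1'] with q hq
      exact hq ⟨0, by omega⟩
    have h3 := Measure.ae_ae_of_ae_prod h2
    obtain ⟨x, hx⟩ := h3.exists
    exact hfc ⟨f x, hx.mono fun y hy => hy.symm⟩

lemma measurable_comb {T : α → α} (hT : Measurable T) {f : α → ZMod p} (hf : Measurable f)
    {n : ℕ} (a : Fin n → ZMod p) : Measurable fun x => chi (comb T f a x) :=
  measurable_chi_sum a (fun i x => f (T^[i] x)) fun i => hf.comp (hT.iterate i)

lemma ae_iterate {T : α → α} (hP : MeasurePreserving (Prod.map T T) (μ.prod μ) (μ.prod μ))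
    {β : Type*} {φ ξ : α × α → β} (h : φ =ᵐ[μ.prod μ] ξ) (i : ℕ) :
    ∀ᵐ q ∂(μ.prod μ), φ ((Prod.map T T)^[i] q) = ξ ((Prod.map T T)^[i] q) :=
  (hP.iterate i).quasiMeasurePreserving.ae h

lemma integral_eq_zero_of {T : α → α} (hT : MeasurePreserving T μ μ)
    (hE : Ergodic (Prod.map T T) (μ.prod μ)) {F : MeasurableSpace (α × α)}
    (hFT : ∀ s, MeasurableSet[F] s → MeasurableSet[F] (Prod.map T T ⁻¹' s))
    (h1 : Indep F (MeasurableSpace.comap Prod.fst (inferInstance : MeasurableSpace α)) (μ.prod μ))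
    (h2 : Indep F (MeasurableSpace.comap Prod.snd (inferInstance : MeasurableSpace α)) (μ.prod μ))
    {f g : α → ZMod p} (hf : Measurable f) (hg : Measurable g)
    (hF : InFactor μ F fun q : α × α => f q.1 + g q.2)
    (hfc : ¬ ∃ c, ∀ᵐ x ∂μ, f x = c) {n : ℕ} {a : Fin n → ZMod p} (ha : a ≠ 0) :
    ∫ x, chi (comb T f a x) ∂μ = 0 ∧ ∫ x, chi (comb T g a x) ∂μ = 0 := by
  obtain ⟨φ, hφ, hφe⟩ := hF
  have hmeas : InFactor μ F fun q : α × α => chi (comb T f a q.1) * chi (comb T g a q.2) := by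
    have hTF : Measurable[F, F] (Prod.map T T) := fun s hs => hFT s hs
    have hit : ∀ i : ℕ, Measurable[F, F] (Prod.map T T)^[i] := fun i =>
      @Measurable.iterate _ F _ hTF i
    refine ⟨fun q => chi (∑ i : Fin n, a i * φ ((Prod.map T T)^[i] q)), ?_, ?_⟩
    · exact @measurable_chi_sum p _ (α × α) F n a
        (fun i q => φ ((Prod.map T T)^[i] q))
        fun i => @Measurable.comp _ _ _ F F _ _ _ hφ (hit i)
    · have h3 : ∀ i : Fin n, ∀ᵐ q ∂(μ.prod μ), φ ((Prod.map T T)^[i] q) =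
          f ((Prod.map T T)^[i] q).1 + g ((Prod.map T T)^[i] q).2 := fun i =>
        ae_iterate hE.toMeasurePreserving hφe i
      filter_upwards [ae_all_iff.2 h3] with q hq
      simp only [hq]
      rw [← chi_add]
      congr 1
      simp only [comb, Prod.map_iterate, Prod.map_fst, Prod.map_snd]
      rw [← Finset.sum_add_distrib]
      exact Finset.sum_congr rfl fun i _ => by ring
  rcases dichotomy h1 h2 (measurable_comb hT.measurable hf a) (measurable_comb hT.measurable hg a)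
    (fun x => norm_chi _) (fun x => norm_chi _) hmeas with h | h
  · exact h
  · exfalso
    obtain ⟨c, hc⟩ := const_of_norm_one (fun x => norm_chi (comb T f a x)) h.1
    obtain ⟨x, hx⟩ := hc.exists
    refine not_const hT hE hf hfc ha ⟨comb T f a x, hc.mono fun y hy => ?_⟩
    exact chi_inj (hy.trans hx.symm)

lemma sum_chi_mul (w : ZMod p) : ∑ t : ZMod p, chi (t * w) = if w = 0 then (p : ℂ) else 0 := by
  have h := AddChar.sum_mulShift (ψ := ZMod.stdAddChar (N := p)) w (ZMod.isPrimitive_stdAddChar p)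
  simp only [ZMod.card] at h
  unfold chi
  rw [h]
  split_ifs <;> simp

lemma prod_chi {ι : Type*} (s : Finset ι) (φ : ι → ZMod p) :
    chi (∑ i ∈ s, φ i) = ∏ i ∈ s, chi (φ i) := by
  classical
  induction s using Finset.induction_on with
  | empty => simp [chi]
  | insert i s hi ih => rw [Finset.sum_insert hi, Finset.prod_insert hi, chi_add, ih]

lemma sum_chi_all {n : ℕ} (w : Fin n → ZMod p) :
    ∑ a : Fin n → ZMod p, chi (∑ i, a i * w i) = if w = 0 then (p : ℂ) ^ n else 0 := by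
  classical
  have h1 : ∑ a : Fin n → ZMod p, chi (∑ i, a i * w i) = ∏ i, ∑ t : ZMod p, chi (t * w i) := by
    rw [Finset.prod_univ_sum, Fintype.piFinset_univ]
    exact Finset.sum_congr rfl fun a _ => prod_chi _ _
  rw [h1]
  simp only [sum_chi_mul]
  split_ifs with h
  · subst h
    simp
  · obtain ⟨i, hi⟩ := Function.ne_iff.1 h
    exact Finset.prod_eq_zero (Finset.mem_univ i) (if_neg hi)

lemma law {T : α → α} (hT : Measurable T) {f : α → ZMod p} (hf : Measurable f)
    (h0 : ∀ (n : ℕ) (a : Fin n → ZMod p), a ≠ 0 → ∫ x, chi (comb T f a x) ∂μ = 0) (n : ℕ)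
    (v : Fin n → ZMod p) :
    μ.real {x | ∀ i : Fin n, f (T^[i] x) = v i} = ((p : ℝ)⁻¹) ^ n := by
  classical
  set S : Set α := {x | ∀ i : Fin n, f (T^[i] x) = v i} with hS
  have hSm : MeasurableSet S := by
    have : S = ⋂ i : Fin n, (fun x => f (T^[i] x)) ⁻¹' {v i} := by
      ext x; simp [hS]
    rw [this]
    exact MeasurableSet.iInter fun i => (hf.comp (hT.iterate i)) (measurableSet_singleton _)
  have hp0 : (p : ℂ) ≠ 0 := by exact_mod_cast (Fact.out : p.Prime).ne_zero
  have key : ∀ x, S.indicator (fun _ => (1 : ℂ)) x =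
      ((p : ℂ) ^ n)⁻¹ * ∑ a : Fin n → ZMod p, chi (-∑ i, a i * v i) * chi (comb T f a x) := by
    intro x
    have e1 : ∀ a : Fin n → ZMod p, chi (-∑ i, a i * v i) * chi (comb T f a x) =
        chi (∑ i, a i * (f (T^[i] x) - v i)) := by
      intro a
      rw [← chi_add]
      congr 1
      rw [comb, ← Finset.sum_neg_distrib, ← Finset.sum_add_distrib]
      exact Finset.sum_congr rfl fun i _ => by ring
    simp only [e1]
    rw [sum_chi_all fun i => f (T^[i] x) - v i]
    by_cases hx : x ∈ S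
    · have : (fun i : Fin n => f (T^[i] x) - v i) = 0 := by
        funext i
        exact sub_eq_zero.2 (hx i)
      rw [Set.indicator_of_mem hx, if_pos this, inv_mul_cancel₀ (pow_ne_zero _ hp0)]
    · have : (fun i : Fin n => f (T^[i] x) - v i) ≠ 0 := by
        intro h
        exact hx fun i => sub_eq_zero.1 (congrFun h i)
      rw [Set.indicator_of_notMem hx, if_neg this, mul_zero]
  have hint : ∀ a : Fin n → ZMod p, Integrable (fun x => chi (comb T f a x)) μ := fun a =>
    Integrable.of_bound (measurable_comb hT hf a).aestronglyMeasurable 1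
      (Filter.Eventually.of_forall fun x => (norm_chi _).le)
  have h1 : ((μ.real S : ℝ) : ℂ) = ∫ x, S.indicator (fun _ => (1 : ℂ)) x ∂μ := by
    rw [integral_indicator_const _ hSm]
    simp
  have h2 : ∀ a : Fin n → ZMod p, ∫ x, chi (comb T f a x) ∂μ = if a = 0 then 1 else 0 := by
    intro a
    split_ifs with ha
    · subst ha
      simp [comb, chi]
    · exact h0 n a ha
  have h3 : ((μ.real S : ℝ) : ℂ) = ((p : ℂ) ^ n)⁻¹ := by
    rw [h1]
    simp only [key]
    rw [integral_const_mul, integral_finsetSum _ fun a _ => (hint a).const_mul _]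
    simp only [integral_const_mul, h2]
    simp [chi]
  have h4 : ((μ.real S : ℝ) : ℂ) = (((p : ℝ)⁻¹) ^ n : ℝ) := by
    rw [h3]
    push_cast
    rw [inv_pow]
  exact_mod_cast h4

lemma meas_zpow (k : ℤ) : Measurable fun z : ℂ => z ^ k := by
  cases k with
  | ofNat k => simpa using (measurable_id (α := ℂ)).pow_const k
  | negSucc k =>
    simp only [zpow_negSucc]
    exact ((measurable_id (α := ℂ)).pow_const (k + 1)).inv

lemma measurable_prod_zpow {β : Type*} {m : MeasurableSpace β} {n : ℕ} (k : Fin n → ℤ)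
    (φ : Fin n → β → ℂ) (hφ : ∀ i, Measurable (φ i)) :
    Measurable fun x => ∏ i : Fin n, (φ i x) ^ (k i) :=
  Finset.measurable_prod _ fun i _ => (meas_zpow (k i)).comp (hφ i)

lemma norm_prod_zpow {u : α → ℂ} (hu1 : ∀ x, ‖u x‖ = 1) (T : α → α) {n : ℕ} (k : Fin n → ℤ)
    (x : α) : ‖∏ i : Fin n, (u (T^[i] x)) ^ (k i)‖ = 1 := by
  rw [norm_prod]
  exact Finset.prod_eq_one fun i _ => by rw [norm_zpow, hu1, one_zpow]

lemma unimodular {T : α → α} (hT : MeasurePreserving T μ μ)
    (hP : MeasurePreserving (Prod.map T T) (μ.prod μ) (μ.prod μ)) {F : MeasurableSpace (α × α)}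
    (hFT : ∀ s, MeasurableSet[F] s → MeasurableSet[F] (Prod.map T T ⁻¹' s))
    (h1 : Indep F (MeasurableSpace.comap Prod.fst (inferInstance : MeasurableSpace α)) (μ.prod μ))
    (h2 : Indep F (MeasurableSpace.comap Prod.snd (inferInstance : MeasurableSpace α)) (μ.prod μ))
    {u v : α → ℂ} (hu : Measurable u) (hv : Measurable v) (hu1 : ∀ x, ‖u x‖ = 1)
    (hv1 : ∀ x, ‖v x‖ = 1) (hF : InFactor μ F fun q : α × α => u q.1 * v q.2) {n : ℕ}
    (k : Fin n → ℤ) :
    (∫ x, ∏ i : Fin n, (u (T^[i] x)) ^ (k i) ∂μ = 0 ∧ ∫ x, ∏ i : Fin n, (v (T^[i] x)) ^ (k i) ∂μ = 0) ∨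
    ((∃ c : ℂ, ∀ᵐ x ∂μ, ∏ i : Fin n, (u (T^[i] x)) ^ (k i) = c) ∧
      ∃ c : ℂ, ∀ᵐ x ∂μ, ∏ i : Fin n, (v (T^[i] x)) ^ (k i) = c) := by
  obtain ⟨φ, hφ, hφe⟩ := hF
  have hmeas : InFactor μ F fun q : α × α =>
      (∏ i : Fin n, (u (T^[i] q.1)) ^ (k i)) * ∏ i : Fin n, (v (T^[i] q.2)) ^ (k i) := by
    have hTF : Measurable[F, F] (Prod.map T T) := fun s hs => hFT s hs
    have hit : ∀ i : ℕ, Measurable[F, F] (Prod.map T T)^[i] := fun i =>
      @Measurable.iterate _ F _ hTF i
    refine ⟨fun q => ∏ i : Fin n, (φ ((Prod.map T T)^[i] q)) ^ (k i), ?_, ?_⟩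
    · exact @measurable_prod_zpow (α × α) F n k (fun i q => φ ((Prod.map T T)^[i] q))
        fun i => @Measurable.comp _ _ _ F F _ _ _ hφ (hit i)
    · have h3 : ∀ i : Fin n, ∀ᵐ q ∂(μ.prod μ), φ ((Prod.map T T)^[i] q) =
          u ((Prod.map T T)^[i] q).1 * v ((Prod.map T T)^[i] q).2 := fun i =>
        ae_iterate hP hφe i
      filter_upwards [ae_all_iff.2 h3] with q hq
      have h4 : ∀ i : Fin n, (φ ((Prod.map T T)^[i] q)) ^ (k i) =
          (u (T^[i] q.1)) ^ (k i) * (v (T^[i] q.2)) ^ (k i) := fun i => by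
        rw [hq i, Prod.map_iterate, mul_zpow]
        rfl
      rw [Finset.prod_congr rfl fun i _ => h4 i, Finset.prod_mul_distrib]
  have hU : Measurable fun x => ∏ i : Fin n, (u (T^[i] x)) ^ (k i) :=
    measurable_prod_zpow k (fun i x => u (T^[i] x)) fun i => hu.comp (hT.measurable.iterate i)
  have hV : Measurable fun x => ∏ i : Fin n, (v (T^[i] x)) ^ (k i) :=
    measurable_prod_zpow k (fun i x => v (T^[i] x)) fun i => hv.comp (hT.measurable.iterate i)
  rcases dichotomy h1 h2 hU hV (norm_prod_zpow hu1 T k) (norm_prod_zpow hv1 T k) hmeas with h | h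
  · exact Or.inl h
  · exact Or.inr ⟨const_of_norm_one (norm_prod_zpow hu1 T k) h.1,
      const_of_norm_one (norm_prod_zpow hv1 T k) h.2⟩

end Main

/-- **Factors of `T × T` that are independent of the coordinate algebras.** Let `T × T` be ergodic and
let `F` be a factor of `T × T` which is independent of both coordinate algebras.

(1) If a function `f (x) + g (y)` modulo a prime number `p` belongs to `F` (up to a null set) and is
not a.e. constant then the functions `f ∘ T ^ i` are independent and uniformly distributed modulo `p`,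
and so are the `g ∘ T ^ i`; the `n`-block entropy of the partition into the level sets of `f` is
`n log p`, and so the entropy of `T` is at least `log p`.

(2) If `u (x) v (y)` belongs to `F`, where `|u| = |v| = 1`, then each product of integral powers of the
functions `u ∘ T ^ i` has the integral zero or is a.e. constant, simultaneously for `u` and `v`. (So the
process `u ∘ T ^ i` is distributed according to the Haar measure of a coset of a closed subgroup.) -/
theorem result (α : Type) [MeasurableSpace α] (μ : Measure α) [IsProbabilityMeasure μ]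
    (T : α → α) (hT : MeasurePreserving T μ μ) (hE : Ergodic (Prod.map T T) (μ.prod μ))
    (F : MeasurableSpace (α × α))
    (hFT : ∀ s, MeasurableSet[F] s → MeasurableSet[F] (Prod.map T T ⁻¹' s))
    (h1 : Indep F (MeasurableSpace.comap Prod.fst (inferInstance : MeasurableSpace α)) (μ.prod μ))
    (h2 : Indep F (MeasurableSpace.comap Prod.snd (inferInstance : MeasurableSpace α)) (μ.prod μ)) :
    (∀ (p : ℕ) [Fact p.Prime] (f g : α → ZMod p), Measurable f → Measurable g →
      (InFactor μ F fun q : α × α => f q.1 + g q.2) →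
      (¬ ∃ c, ∀ᵐ q ∂(μ.prod μ), f q.1 + g q.2 = c) →
        (∀ (n : ℕ) (v : Fin n → ZMod p),
          μ.real {x | ∀ i : Fin n, f (T^[i] x) = v i} = ((p : ℝ)⁻¹) ^ n) ∧
        (∀ (n : ℕ) (v : Fin n → ZMod p),
          μ.real {x | ∀ i : Fin n, g (T^[i] x) = v i} = ((p : ℝ)⁻¹) ^ n) ∧
        ∀ n : ℕ, ∑ v : Fin n → ZMod p,
          Real.negMulLog (μ.real {x | ∀ i : Fin n, f (T^[i] x) = v i}) = n * Real.log p) ∧
    (∀ u v : α → ℂ, Measurable u → Measurable v → (∀ x, ‖u x‖ = 1) → (∀ x, ‖v x‖ = 1) →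
      (InFactor μ F fun q : α × α => u q.1 * v q.2) → ∀ (n : ℕ) (k : Fin n → ℤ),
        (∫ x, ∏ i : Fin n, (u (T^[i] x)) ^ (k i) ∂μ = 0 ∧ ∫ x, ∏ i : Fin n, (v (T^[i] x)) ^ (k i) ∂μ = 0) ∨
        ((∃ c : ℂ, ∀ᵐ x ∂μ, ∏ i : Fin n, (u (T^[i] x)) ^ (k i) = c) ∧
          ∃ c : ℂ, ∀ᵐ x ∂μ, ∏ i : Fin n, (v (T^[i] x)) ^ (k i) = c)) := by
  refine ⟨?_, fun u v hu hv hu1 hv1 hF n k =>
    unimodular hT hE.toMeasurePreserving hFT h1 h2 hu hv hu1 hv1 hF k⟩
  intro p _ f g hf hg hF hc
  have hfc : ¬ ∃ c, ∀ᵐ x ∂μ, f x = c := by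
    rintro ⟨c, hfc⟩
    -- then `g` is constant as well
    have hm : InFactor μ F fun q : α × α => chi (f q.1) * chi (g q.2) := by
      obtain ⟨φ, hφ, hφe⟩ := hF
      have h3 : Measurable (chi (p := p)) := measurable_of_finite _
      refine ⟨fun q => chi (φ q), @Measurable.comp _ _ _ F _ _ _ _ h3 hφ, ?_⟩
      filter_upwards [hφe] with q hq
      rw [hq, chi_add]
    have hχ : Measurable (chi (p := p)) := measurable_of_finite _
    have hn : ‖∫ x, chi (f x) ∂μ‖ = 1 :=
      norm_one_of_const (fun x => norm_chi _) ⟨chi c, hfc.mono fun x hx => by rw [hx]⟩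
    rcases dichotomy h1 h2 (hχ.comp hf) (hχ.comp hg) (fun x => norm_chi _) (fun x => norm_chi _) hm
      with h | h
    · have h5 : ∫ x, chi (f x) ∂μ = 0 := h.1
      rw [h5, norm_zero] at hn
      exact zero_ne_one hn
    · obtain ⟨d, hd⟩ := const_of_norm_one (fun x => norm_chi (g x)) h.2
      obtain ⟨y, hy⟩ := hd.exists
      have hg' : ∀ᵐ x ∂μ, g x = g y := hd.mono fun x hx => chi_inj (hx.trans hy.symm)
      apply hc
      refine ⟨c + g y, ?_⟩
      filter_upwards [Measure.quasiMeasurePreserving_fst.ae hfc,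
        Measure.quasiMeasurePreserving_snd.ae hg'] with q hq1 hq2
      rw [hq1, hq2]
  have hz : ∀ (n : ℕ) (a : Fin n → ZMod p), a ≠ 0 →
      ∫ x, chi (comb T f a x) ∂μ = 0 ∧ ∫ x, chi (comb T g a x) ∂μ = 0 := fun n a ha =>
    integral_eq_zero_of hT hE hFT h1 h2 hf hg hF hfc ha
  have hlf := law (μ := μ) hT.measurable hf fun n a ha => (hz n a ha).1
  have hlg := law (μ := μ) hT.measurable hg fun n a ha => (hz n a ha).2
  refine ⟨hlf, hlg, fun n => ?_⟩
  have hp0 : (p : ℝ) ≠ 0 := by exact_mod_cast (Fact.out : p.Prime).ne_zero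
  simp only [hlf]
  rw [Finset.sum_const, Finset.card_univ, Fintype.card_fun, ZMod.card, Fintype.card_fin,
    Real.negMulLog, Real.log_pow, Real.log_inv, nsmul_eq_mul]
  push_cast
  rw [inv_pow]
  field_simp

end Pool.Agent.Results.MP_fa3ce5_an.ModPFactors
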